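import Mathlib
import Pool.Agent.Lib.helper31.IncVar

namespace Pool.Agent.Results.MP_f75ac6_al.NoMaximal

open Pool.Agent.Lib.helper31.IncVar

/-- `K` is defined by a set of identical inclusions `u ∈ V` with `V` nonempty and finite. -/
def IsElementary (K : Set Semigrp.{0}) : Prop :=
  ∃ Sig : Set (Word × Set Word), (∀ p ∈ Sig, p.2.Nonempty ∧ p.2.Finite) ∧ K = ModelsOf Sig

/-- the variety defined by `u ∈ X⁺ \ {u}` -/
def Mu (u : Word) : Set Semigrp.{0} := ModelsOf {(u, {v | v ≠ u})}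

lemma mem_Mu (u : Word) (S : Semigrp.{0}) :
    S ∈ Mu u ↔ ∀ φ : Word →ₙ* S, ∃ v, v ≠ u ∧ φ u = φ v := by
  simp [Mu, ModelsOf, Sat]

lemma ne_mul_self (u w : Word) : u * w ≠ u := by
  intro h
  have := congrArg FreeSemigroup.length h
  rw [FreeSemigroup.length_mul] at this
  have h2 : 0 < w.length := Nat.succ_pos _
  omega

lemma Mu_variety (u : Word) : IsInclusiveVariety (Mu u) := by
  refine ⟨_, ?_, rfl⟩
  rintro p rfl
  exact ⟨u * u, ne_mul_self u u⟩

lemma mul_right_cancel_word {a b c : Word} (h : a * c = b * c) : a = b := by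
  have h1 := congrArg FreeSemigroup.head h
  have h2 := congrArg FreeSemigroup.tail h
  simp only [FreeSemigroup.head_mul, FreeSemigroup.tail_mul] at h1 h2
  exact FreeSemigroup.ext h1 (List.append_cancel_right h2)

lemma Mu_subset (u : Word) : Mu u ⊆ Mu (u * u) := by
  intro S hS
  rw [mem_Mu] at hS ⊢
  intro φ
  obtain ⟨v, hv, h⟩ := hS φ
  exact ⟨v * u, fun e => hv (mul_right_cancel_word e), by rw [map_mul, map_mul, ← h]⟩

/-- Rees congruence of the ideal of words longer than `n` -/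
def rees (n : ℕ) : Con Word where
  r a b := a = b ∨ (n < a.length ∧ n < b.length)
  iseqv := ⟨fun _ => Or.inl rfl, fun h => h.elim (fun e => Or.inl e.symm) (fun e => Or.inr e.symm),
    fun {a b c} h1 h2 => by
      rcases h1 with rfl | h1
      · exact h2
      · rcases h2 with rfl | h2
        · exact Or.inr h1
        · exact Or.inr ⟨h1.1, h2.2⟩⟩
  mul' := fun {a b c d} h1 h2 => by
    rcases h1 with rfl | h1
    · rcases h2 with rfl | h2
      · exact Or.inl rfl
      · right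
        simp only [FreeSemigroup.length_mul]
        omega
    · right
      simp only [FreeSemigroup.length_mul]
      omega

lemma rees_long (n : ℕ) (φ : Word →ₙ* (rees n).Quotient) (w : Word) :
    ∃ r : Word, φ w = (r : (rees n).Quotient) ∧ w.length ≤ r.length := by
  induction w using FreeSemigroup.recOnMul with
  | ih1 x =>
    obtain ⟨r, hr⟩ := Quotient.exists_rep (φ (FreeSemigroup.of x))
    exact ⟨r, hr.symm, Nat.succ_pos _⟩
  | ih2 x y h1 h2 =>
    obtain ⟨r, hr, hl⟩ := h1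
    obtain ⟨s, hs, hm⟩ := h2
    refine ⟨r * s, by rw [map_mul, hr, hs, Con.coe_mul], ?_⟩
    simp only [FreeSemigroup.length_mul]
    omega

lemma Mu_ssubset (u : Word) : Mu u ⊂ Mu (u * u) := by
  refine ⟨Mu_subset u, fun h => ?_⟩
  have h1 : Semigrp.of (rees u.length).Quotient ∈ Mu (u * u) := by
    rw [mem_Mu]
    intro φ
    refine ⟨u * u * u, ne_mul_self _ _, ?_⟩
    obtain ⟨r, hr, hl⟩ := rees_long u.length φ (u * u)
    obtain ⟨s, hs, hm⟩ := rees_long u.length φ (u * u * u)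
    have h0 : 0 < u.length := Nat.succ_pos _
    simp only [FreeSemigroup.length_mul] at hl hm
    refine hr.trans (Eq.trans ?_ hs.symm)
    exact (Con.eq _).2 (Or.inr ⟨by omega, by omega⟩)
  have h2 := h h1
  rw [mem_Mu] at h2
  obtain ⟨v, hv, e⟩ := h2 ((rees u.length).mkMulHom)
  have e' : (rees u.length) u v := (Con.eq _).1 e
  rcases e' with e' | e'
  · exact hv e'.symm
  · exact lt_irrefl _ e'.1

lemma group_mem (u : Word) (G : Type) [Group G] [Finite G] : Semigrp.of G ∈ Mu u := by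
  rw [mem_Mu]
  intro φ
  have key : ∀ k : ℕ, ∃ v : Word, v.length = (k + 1) * u.length ∧ φ v = (φ u : G) ^ (k + 1) := by
    intro k
    induction k with
    | zero => exact ⟨u, by simp, by simp⟩
    | succ k ih =>
      obtain ⟨v, hv, e⟩ := ih
      refine ⟨v * u, by rw [FreeSemigroup.length_mul, hv]; ring, ?_⟩
      rw [map_mul, e, pow_succ _ (k + 1)]
  obtain ⟨v, hv, e⟩ := key (Nat.card G)
  have hc : 0 < Nat.card G := Nat.card_pos
  have h0 : 0 < u.length := Nat.succ_pos _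
  refine ⟨v, ?_, ?_⟩
  · rintro rfl
    nlinarith
  · rw [e, pow_succ, pow_card_eq_one', one_mul]

def code (b : ℕ) (w : Word) : ℕ := Nat.ofDigits b ((w.head :: w.tail).map (· + 1))

lemma code_inj (b : ℕ) (hb : 1 < b) (v w : Word) (hv : ∀ x ∈ v.head :: v.tail, x + 1 < b)
    (hw : ∀ x ∈ w.head :: w.tail, x + 1 < b) (h : code b v = code b w) : v = w := by
  have aux : ∀ w : Word, (∀ x ∈ w.head :: w.tail, x + 1 < b) →
      Nat.digits b (code b w) = (w.head :: w.tail).map (· + 1) := by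
    intro w hw
    apply Nat.digits_ofDigits b hb
    · intro l hl
      obtain ⟨x, hx, rfl⟩ := List.mem_map.1 hl
      exact hw x hx
    · intro h0 e
      have := List.getLast_mem h0
      rw [e] at this
      obtain ⟨x, -, hx⟩ := List.mem_map.1 this
      omega
  have e := (aux v hv).symm.trans (h ▸ aux w hw)
  have e2 := List.map_injective_iff.2 (fun a b (h : a + 1 = b + 1) => Nat.succ_injective h) e
  simp only [List.cons.injEq] at e2
  exact FreeSemigroup.ext e2.1 e2.2

lemma separate (q : Word) (W : Set Word) (hW : W.Finite) (hq : q ∉ W) :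
    ∃ (G : Type) (_ : Group G) (_ : Finite G) (ψ : Word →ₙ* G), ∀ w ∈ W, ψ q ≠ ψ w := by
  classical
  have hF : (insert q W).Finite := hW.insert q
  obtain ⟨b, hb1, hb⟩ : ∃ b, 1 < b ∧ ∀ w ∈ insert q W, ∀ x ∈ w.head :: w.tail, x + 1 < b := by
    obtain ⟨B, hB⟩ := (hF.image (fun w : Word => (w.head :: w.tail).sum)).bddAbove
    refine ⟨B + 2, by omega, fun w hw x hx => ?_⟩
    have h1 : (w.head :: w.tail).sum ≤ B := hB ⟨w, hw, rfl⟩
    have h2 : x ≤ (w.head :: w.tail).sum := List.single_le_sum (by simp) x hx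
    omega
  obtain ⟨K, hK⟩ := (hF.image (code b)).bddAbove
  set N := b * K + 1 with hN
  have hcop : Nat.Coprime b N := by
    rw [hN]
    simp
  haveI : NeZero N := ⟨by omega⟩
  let β : (ZMod N)ˣ := ZMod.unitOfCoprime b hcop
  let g : ℕ → Equiv.Perm (ZMod N) := fun x =>
    (Units.mulLeft β).trans (Equiv.addLeft (((x + 1 : ℕ) : ZMod N)))
  have hg : ∀ x t, g x t = ((x + 1 : ℕ) : ZMod N) + (b : ZMod N) * t := fun x t => rfl
  let ψ : Word →ₙ* Equiv.Perm (ZMod N) := FreeSemigroup.lift g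
  have hψ : ∀ w : Word, ψ w 0 = (code b w : ZMod N) := by
    intro w
    induction w using FreeSemigroup.recOnMul with
    | ih1 x =>
      simp only [ψ, FreeSemigroup.lift_of, hg]
      simp [code, FreeSemigroup.of]
    | ih2 x y h1 h2 =>
      rw [map_mul, Equiv.Perm.mul_apply, h2]
      simp only [ψ, FreeSemigroup.lift_of, hg]
      simp [code, FreeSemigroup.of, Nat.ofDigits_cons]
  refine ⟨Equiv.Perm (ZMod N), inferInstance, inferInstance, ψ, fun w hw e => ?_⟩
  have e1 : (code b q : ZMod N) = code b w := by rw [← hψ, ← hψ, e]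
  have l1 : code b q ≤ K := hK ⟨q, Or.inl rfl, rfl⟩
  have l2 : code b w ≤ K := hK ⟨w, Or.inr hw, rfl⟩
  have hKN : K < N := by rw [hN]; nlinarith
  rw [ZMod.natCast_eq_natCast_iff'] at e1
  rw [Nat.mod_eq_of_lt (by omega), Nat.mod_eq_of_lt (by omega)] at e1
  have := code_inj b hb1 q w (hb q (Or.inl rfl)) (hb w (Or.inr hw)) e1
  exact hq (this ▸ hw)

lemma Mu_nonelementary (u : Word) : ¬ IsElementary (Mu u) := by
  rintro ⟨Sig, hSig, h⟩
  have h1 : Semigrp.of Word ∉ Mu u := by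
    rw [mem_Mu]
    intro h
    obtain ⟨v, hv, e⟩ := h (MulHom.id _)
    exact hv e.symm
  rw [h] at h1
  simp only [ModelsOf, Sat, Set.mem_ofPred_eq] at h1
  push Not at h1
  obtain ⟨p, hp, φ, hφ⟩ := h1
  obtain ⟨G, _, _, ψ, hψ⟩ := separate (φ p.1) (φ '' p.2) ((hSig p hp).2.image _) (by
    rintro ⟨v, hv, e⟩
    exact hφ v hv e.symm)
  have h2 := group_mem u G
  rw [h] at h2
  obtain ⟨v, hv, e⟩ := h2 p hp (ψ.comp φ)
  exact hψ _ ⟨v, hv, rfl⟩ e

theorem result (M : Set Semigrp.{0}) (hM : IsInclusiveVariety M) (hne : ¬ IsElementary M) :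
    ∃ N : Set Semigrp.{0}, IsInclusiveVariety N ∧ M ⊂ N ∧ ¬ IsElementary N := by
  obtain ⟨Sig, hSig, rfl⟩ := hM
  have : ∃ p ∈ Sig, p.1 ∉ p.2 := by
    by_contra hc
    push Not at hc
    apply hne
    refine ⟨∅, by simp, ?_⟩
    ext S
    simp only [ModelsOf, Set.mem_ofPred_eq, Set.mem_empty_iff_false, false_imp_iff, implies_true,
      iff_true]
    intro p hp φ
    exact ⟨p.1, hc p hp, rfl⟩
  obtain ⟨p, hp, hpn⟩ := this
  refine ⟨Mu (p.1 * p.1), Mu_variety _, ?_, Mu_nonelementary _⟩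
  refine lt_of_le_of_lt (?_ : ModelsOf Sig ≤ Mu p.1) (Mu_ssubset p.1)
  intro S hS
  rw [mem_Mu]
  intro φ
  obtain ⟨v, hv, e⟩ := hS p hp φ
  exact ⟨v, fun h => hpn (h ▸ hv), e⟩

end Pool.Agent.Results.MP_f75ac6_al.NoMaximal
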